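import Mathlib
import Pool.Agent.LGO.LK.Gen

/-!
# LGO/TI: curves whose divisor classes of degree zero at infinity are torsion (MP_d83ecd_ag)

`PolEq K C f g`: positive multiples of the pole divisors of the polynomial functions `f`, `g` on the curve `C` are
linearly equivalent, by a function with coefficients in `K`.  `TorInf K C`: this holds for any two nonconstant
polynomials over `K`.  `main_ti`: the Zilber-Pink statement for a curve over `ℂ` whose projections to two coordinates,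
if they are defined over the algebraic numbers, have torsion classes at infinity over some field of definition.
-/

namespace Pool.Agent.LGO.TI

open MvPolynomial UpperHalfPlane Pool.Agent.Hhelper14.ZP Pool.Agent.Hhelper14.ZPL Pool.Agent.LGO
  Pool.Agent.LGO.ZF Pool.Agent.LGO.ZG Pool.Agent.LGO.ZV Pool.Agent.LGO.PWG Pool.Agent.LGO.FC
  Pool.Agent.LGO.KC Pool.Agent.LGO.LK Pool.Agent.LGO.TG Pool.Agent.ZPE

variable {n m : ℕ} {V W : Set (Fin n → ℂ)}

/-- The divisor of `F / G` on the curve `C` is `s (g)_∞ - r (f)_∞` for some `r, s ≥ 1` and some polynomials `F`, `G` with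
coefficients in `K`: outside a finite subset of `C`, `F` and `G` do not vanish and the function
`‖F / G‖ max(1, ‖g‖) ^ s / max(1, ‖f‖) ^ r` is between two positive constants. -/
def PolEq (K : IntermediateField ℚ ℂ) (C : Set (Fin n → ℂ)) (f g : MvPolynomial (Fin n) K) : Prop :=
  ∃ (r s : ℕ) (F G : MvPolynomial (Fin n) K) (B : ℝ), 0 < r ∧ 0 < s ∧
    {x ∈ C | ¬ ((aeval x F : ℂ) ≠ 0 ∧ (aeval x G : ℂ) ≠ 0 ∧
      ‖(aeval x F : ℂ)‖ * max 1 ‖(aeval x g : ℂ)‖ ^ s ≤
        B * (‖(aeval x G : ℂ)‖ * max 1 ‖(aeval x f : ℂ)‖ ^ r) ∧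
      ‖(aeval x G : ℂ)‖ * max 1 ‖(aeval x f : ℂ)‖ ^ r ≤
        B * (‖(aeval x F : ℂ)‖ * max 1 ‖(aeval x g : ℂ)‖ ^ s))}.Finite

/-- `C` is the set of zeros of polynomials with coefficients in `K` -/
def DefOver (K : IntermediateField ℚ ℂ) (C : Set (Fin n → ℂ)) : Prop :=
  ∀ x : Fin n → ℂ, (∀ G : MvPolynomial (Fin n) K, (∀ y ∈ C, (aeval y G : ℂ) = 0) → (aeval x G : ℂ) = 0) →
    x ∈ C

/-- **The divisors of degree zero at infinity of `C` over `K` are torsion**: any two polynomials `f`, `g` with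
coefficients in `K` which are not constant on `C` have linearly equivalent positive multiples `r (f)_∞`, `s (g)_∞` of
their pole divisors. -/
def TorInf (K : IntermediateField ℚ ℂ) (C : Set (Fin n → ℂ)) : Prop :=
  ∀ f g : MvPolynomial (Fin n) K, (∀ c : ℂ, ∃ x ∈ C, (aeval x f : ℂ) ≠ c) →
    (∀ c : ℂ, ∃ x ∈ C, (aeval x g : ℂ) ≠ c) → PolEq K C f g

/-- the pair theorem from `PolEq` -/
theorem pair_pol (h : ZV.Crv V) {a b : Fin n} (hab : a ≠ b) (hp : PolEq Qb V (X a) (X b)) :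
    PairHt V a b := by
  by_cases hc : CPole V a b
  · exact pairC_pole n V a b hab h hc
  obtain ⟨r, s, F, G, B, hr, hs, hE⟩ := hp
  simp only [aeval_X] at hE
  have key : ∀ x ∈ V, x ∉ {x ∈ V | ¬ ((aeval x F : ℂ) ≠ 0 ∧ (aeval x G : ℂ) ≠ 0 ∧
      ‖(aeval x F : ℂ)‖ * max 1 ‖x b‖ ^ s ≤ B * (‖(aeval x G : ℂ)‖ * max 1 ‖x a‖ ^ r) ∧
      ‖(aeval x G : ℂ)‖ * max 1 ‖x a‖ ^ r ≤ B * (‖(aeval x F : ℂ)‖ * max 1 ‖x b‖ ^ s))} →
      ((aeval x F : ℂ) ≠ 0 ∧ (aeval x G : ℂ) ≠ 0 ∧
      ‖(aeval x F : ℂ)‖ * max 1 ‖x b‖ ^ s ≤ B * (‖(aeval x G : ℂ)‖ * max 1 ‖x a‖ ^ r) ∧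
      ‖(aeval x G : ℂ)‖ * max 1 ‖x a‖ ^ r ≤ B * (‖(aeval x F : ℂ)‖ * max 1 ‖x b‖ ^ s)) :=
    fun x hx hxE => not_not.1 fun h2 => hxE ⟨hx, h2⟩
  have h1 : OneG V b a F G s r B _ := ⟨hs, hE, fun x hx hxE => (key x hx hxE).1,
    fun x hx hxE => (key x hx hxE).2.1, fun x hx hxE => (key x hx hxE).2.2.1⟩
  have h2 : OneG V a b G F r s B _ := ⟨hr, hE, fun x hx hxE => (key x hx hxE).2.1,
    fun x hx hxE => (key x hx hxE).1, fun x hx hxE => (key x hx hxE).2.2.2⟩
  rcases lt_trichotomy r s with hrs | hrs | hrs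
  · exact (pair_d h.irr h.kcl h.dim h.nc h1 hrs).2
  · subst hrs
    exact (pair_t h.irr h.kcl h.dim h.nc ⟨h2, h1⟩ (oneInf h hc)).1
  · exact (pair_d h.irr h.kcl h.dim h.nc h2 hrs).1

/-- from `K` to the algebraic numbers -/
theorem polEq_qb {K : IntermediateField ℚ ℂ} (hK : K ≤ Qb) {f g : MvPolynomial (Fin n) K}
    (h : PolEq K V f g) : PolEq Qb V (MvPolynomial.map (IntermediateField.inclusion hK).toRingHom f)
      (MvPolynomial.map (IntermediateField.inclusion hK).toRingHom g) := by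
  have e : ∀ (F : MvPolynomial (Fin n) K) (x : Fin n → ℂ),
      (aeval x (MvPolynomial.map (IntermediateField.inclusion hK).toRingHom F) : ℂ) = aeval x F := by
    intro F x
    rw [aeval_def, aeval_def, eval₂_map]
    rfl
  obtain ⟨r, s, F, G, B, hr, hs, hE⟩ := h
  refine ⟨r, s, MvPolynomial.map (IntermediateField.inclusion hK).toRingHom F,
    MvPolynomial.map (IntermediateField.inclusion hK).toRingHom G, B, hr, hs, ?_⟩
  simp only [e]
  exact hE

/-- an algebraic extension of `ℚ` in `ℂ` lies in the field of the algebraic numbers -/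
theorem le_qb {K : IntermediateField ℚ ℂ} (hK : Algebra.IsAlgebraic ℚ K) : K ≤ Qb := by
  intro x hx
  rw [mem_algebraicClosure_iff]
  have h0 : IsAlgebraic ℚ (algebraMap K ℂ ⟨x, hx⟩) := (hK.isAlgebraic ⟨x, hx⟩).algebraMap
  exact h0

/-- the pair theorem from `TorInf` -/
theorem pair_ti (h : ZV.Crv V) {K : IntermediateField ℚ ℂ} (hK : Algebra.IsAlgebraic ℚ K)
    (hT : TorInf K V) {a b : Fin n} (hab : a ≠ b) : PairHt V a b := by
  refine pair_pol h hab ?_
  have h1 := polEq_qb (le_qb hK) (hT (X a) (X b) (fun c => ?_) fun c => ?_)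
  · rw [map_X, map_X] at h1
    exact h1
  · obtain ⟨x, hx, hne⟩ := h.nc a c
    exact ⟨x, hx, by rw [aeval_X]; exact hne⟩
  · obtain ⟨x, hx, hne⟩ := h.nc b c
    exact ⟨x, hx, by rw [aeval_X]; exact hne⟩

/-- the pair theorem for the projection to the coordinates `i`, from the projection to two coordinates -/
theorem pair_two {i : Fin m → Fin n} (h : ZV.Crv (cp i W)) {a b : Fin m}
    (hab : a ≠ b)
    (hT : KClosed (cp ![i a, i b] W) → ∃ K : IntermediateField ℚ ℂ, Algebra.IsAlgebraic ℚ K ∧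
      DefOver K (cp ![i a, i b] W) ∧ TorInf K (cp ![i a, i b] W)) : PairHt (cp i W) a b := by
  have hj : Function.Injective ![a, b] := by
    intro x y hxy
    fin_cases x <;> fin_cases y <;> simp_all
  have he : cp ![a, b] (cp i W) = cp ![i a, i b] W := by
    rw [cp_cp]
    congr 1
    funext x
    fin_cases x <;> rfl
  have hc := crv_cp h (by norm_num) hj
  rw [he] at hc
  obtain ⟨K, hK, -, hT⟩ := hT hc.kcl
  have h1 : PairHt (cp ![a, b] (cp i W)) 0 1 := by
    rw [he]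
    exact pair_ti hc hK hT (by decide)
  exact pair_cp h h1

/-- **the Zilber-Pink statement for curves over `ℂ` with torsion classes at infinity** -/
theorem main_ti (hW : Pool.Agent.Hhelper14.ZPL.IsIrredClosed W)
    (hdim : Pool.Agent.Hhelper14.ZPL.dim W = 1)
    (h : ∀ a b : Fin n, a ≠ b → (∀ c : ℂ, ∃ x ∈ W, x a ≠ c) → (∀ c : ℂ, ∃ x ∈ W, x b ≠ c) →
      KClosed (cp ![a, b] W) → ∃ K : IntermediateField ℚ ℂ, Algebra.IsAlgebraic ℚ K ∧
        DefOver K (cp ![a, b] W) ∧ TorInf K (cp ![a, b] W)) : FinAtypical W := by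
  refine main_gen hW hdim (fun i hi hc hk => triP_pair hk (Or.inl ?_)) fun i hi hc hk =>
    qdP_pair hk (Or.inl ?_)
  · exact pair_two hk (by decide) (h _ _ (hi.ne (by decide)) (hc 0) (hc 1))
  · exact pair_two hk (by decide) (h _ _ (hi.ne (by decide)) (hc 0) (hc 1))

end Pool.Agent.LGO.TI
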